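import Pool.Agent.Lib.MP_1c105c_an.Ckf

set_option autoImplicit false

/-!
# Points at which the Julia set of a polynomial with small cycles is not connected im kleinen

`f` is a complex polynomial of degree `d ≥ 2` with connected filled Julia set, `ψ` the inverse of
its Boettcher map, and `α` a periodic point such that every neighbourhood of its orbit `O` contains
a repelling periodic orbit other than `O`. Then for some critical point `c` of `f`, the Julia set
is connected im kleinen at no point `z` such that some `f^n(z)`, `n ≥ 0`, lies in the closure of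
the set of the points `f^m(c)`, `m ≥ 1`, and not in `O`. If `c` is the only critical point, then
the Julia set is not connected im kleinen at `c`.
-/

open Filter Topology Set Polynomial Pool.Agent.Imp

namespace Pool.Agent.Results.MP_1c105c_an.CikPoints

theorem result (f : ℂ[X]) (ψ : ℂ → ℂ) (α : ℂ) (p : ℕ) (hd : 2 ≤ f.natDegree)
    (hψ : IsInverseBoettcher f ψ) (hp : 1 ≤ p) (hα : (fun w => f.eval w)^[p] α = α)
    (hsm : ∀ ε : ℝ, 0 < ε → ∃ (z : ℂ) (n : ℕ), 1 ≤ n ∧ (fun w => f.eval w)^[n] z = z ∧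
      1 < ‖deriv (fun w => f.eval w)^[n] z‖ ∧ (∀ k : ℕ, (fun w => f.eval w)^[k] z ≠ α) ∧
      ∀ k : ℕ, ∃ j : ℕ, ‖(fun w => f.eval w)^[k] z - (fun w => f.eval w)^[j] α‖ < ε) :
    ∃ c : ℂ, f.derivative.eval c = 0 ∧
    (∀ (n : ℕ) (z : ℂ), (fun w => f.eval w)^[n] z ∈
      closure {y | ∃ m : ℕ, (fun w => f.eval w)^[m + 1] c = y} →
      (∀ j : ℕ, (fun w => f.eval w)^[n] z ≠ (fun w => f.eval w)^[j] α) →
      ¬ CikAt (julia f) z) ∧
    ((∀ z, f.derivative.eval z = 0 → z = c) → ¬ CikAt (julia f) c) := by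
  obtain ⟨hP, -, -⟩ := half f ψ hd hψ
  have hrc := rays_of_near Sc.dep0 hd hP (inf f ψ hψ) hp hα hsm
  obtain ⟨c, hc, hsep⟩ := Scg.exists_sep hd hP (inf f ψ hψ) hp hα hsm
  have key : ∀ (n : ℕ) (z : ℂ), (fun w => f.eval w)^[n] z ∈
      closure {y | ∃ m : ℕ, (fun w => f.eval w)^[m + 1] c = y} →
      (∀ j : ℕ, (fun w => f.eval w)^[n] z ≠ (fun w => f.eval w)^[j] α) →
      ¬ CikAt (julia f) z := by
    intro n z hz hne hcik
    have h := Sc.tar5 f ψ hd hψ (Or.inr (Or.inl ⟨z, hcik⟩))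
    exact Scg.not_cik hd hψ hp hα hc hsep h.2.1 hz hne (Scg.cik_iter hd n hcik)
  exact ⟨c, hc, key, fun hcc => key 1 c (subset_closure ⟨0, rfl⟩)
    (Scg.val_ne hd hP hp hα hrc hcc hc)⟩

end Pool.Agent.Results.MP_1c105c_an.CikPoints
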