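import Pool.Agent.Lib.MP_1c105c_an.Nlg
import Pool.Agent.Lib.MP_1c105c_an.Acl
import Pool.Agent.Lib.MP_1c105c_an.Fin10
import Pool.Agent.Lib.MP_1c105c_an.Pin

set_option autoImplicit false

/-!
# Rays that do not land

`f` is a complex polynomial of degree `d ≥ 2` with connected filled Julia set, `ψ` the inverse of
its Boettcher map and `P` the closure of the orbits of the critical values. `a` and `b` are two
different angles with the same image under multiplication by `d`, and near each of them, at distance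
at most `C / d ^ q`, there are angles `t` fixed by multiplication by `d ^ q`, for arbitrarily large
`q`, whose rays land arbitrarily close to `P`. Then the accumulation sets of the rays of angles
`d ^ k a` and `d ^ k b` are contained in no simply connected open set that misses `P`. If one of the
rays of angles `a`, `b`, `d a` lands, the rays of angles `a` and `b` land at points of `P` with the
same image, which are different or a critical point of `f`, and different if `f` has only one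
critical point and there are small cycles: rays of periodic angles that land at points different
from a periodic point `α`, whose orbits follow the orbit of `α` at an arbitrarily small distance.
Hence, if `f` is injective on `P`, and no critical point in `P` is the landing point of a ray or `f`
has only one critical point and small cycles, then no ray of an angle `t` with
`d ^ n t = d ^ m a` modulo 1 for some `n` and `m` lands.

Let `y` be a point such that on both sides of `a`, or on both sides of `b`, there are rays of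
arbitrarily close angles that land arbitrarily close to `y`. If the rays of angles `a` and `b` land,
then `y` lies in every closed connected subset of the filled Julia set that contains their landing
points. Hence, if `P` is contained in a closed connected subset of the filled Julia set that does not
contain `y`, no ray of an angle `t` with `d ^ n t = d ^ m a` modulo 1 for some `n` and `m` lands;
here `f` need not be injective on `P`, and the number of critical points is arbitrary.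

This is meant for a quadratic polynomial with a Cremer fixed point `α` and small cycles, where `α`
is in `P`; `y` is the other preimage of `α`: the angles of the rays that land at a small cycle are
on both sides of `b`, or of `a`, and adding `1 / 2` to them replaces `α` by `y`.
-/

open Filter Topology Set Polynomial Pool.Agent.Imp

namespace Pool.Agent.Results.MP_1c105c_an.NonLanding

private theorem pin_res {f : ℂ[X]} {P : ℂ → ℂ} (hd : 2 ≤ f.natDegree) (hP : Half f P)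
    (hinf : ∀ R : ℝ, ∃ M : ℝ, ∀ u : ℂ, M ≤ u.re → R ≤ ‖P u‖) {a b : ℝ} (hne : ∀ k : ℤ, b ≠ a + k)
    {w w' y : ℂ} {S : Set ℂ} (hw : Land P a w) (hw' : Land P b w')
    (hS : IsClosed S) (hSp : IsPreconnected S) (hSK : S ⊆ filledJulia f) (h1 : w ∈ S)
    (h2 : w' ∈ S) (hyS : y ∉ S)
    (h : ∀ ε : ℝ, 0 < ε → ∃ (l r : ℝ) (z z' : ℂ), a - ε < l ∧ l < a ∧ a < r ∧ r < a + ε ∧
      Land P l z ∧ Land P r z' ∧ ‖z - y‖ < ε ∧ ‖z' - y‖ < ε) : False := by
  have hy : y ∈ filledJulia f := by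
    have hcl := Jul.closed f hd
    rw [← hcl.closure_eq, Metric.mem_closure_iff]
    intro ε hε
    obtain ⟨l, r, z, z', -, -, -, -, hl, -, hz, -⟩ := h ε hε
    refine ⟨z, hcl.frontier_subset (Thr58.land_julia hd hP hl), ?_⟩
    rw [dist_comm, dist_eq_norm]
    exact hz
  have hk : a + Int.fract (b - a) + (⌊b - a⌋ : ℤ) = b := by
    have h3 := Int.floor_add_fract (b - a)
    linarith
  have h0 : Int.fract (b - a) ≠ 0 := by
    intro h3
    rw [h3, add_zero] at hk
    exact hne ⌊b - a⌋ hk.symm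
  have h4 : 0 < Int.fract (b - a) := lt_of_le_of_ne (Int.fract_nonneg _) (Ne.symm h0)
  have h5 := Int.fract_lt_one (b - a)
  have h6 : Land P (a + Int.fract (b - a)) w' := by
    refine Rep.land_add hP.per ⌊b - a⌋ ?_
    rw [hk]
    exact hw'
  exact pin (crs jmp) hd hP hinf (by linarith) (by linarith) hw h6 hS hSp hSK h1 h2 hy hyS h

private theorem land_back {f : ℂ[X]} {P : ℂ → ℂ} (hd : 2 ≤ f.natDegree) (hP : Half f P) {a : ℝ}
    (m : ℕ) : ∀ w : ℂ, Land P ((f.natDegree : ℝ) ^ m * a) w → ∃ z, Land P a z := by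
  induction m with
  | zero =>
    intro w hw
    rw [pow_zero, one_mul] at hw
    exact ⟨w, hw⟩
  | succ m ih =>
    intro w hw
    rw [pow_succ', mul_assoc] at hw
    obtain ⟨z, -, hz⟩ := lfr f P hd hP _ w hw
    exact ih z hz

theorem result (f : ℂ[X]) (ψ : ℂ → ℂ) (a b C : ℝ) (hd : 2 ≤ f.natDegree)
    (hψ : IsInverseBoettcher f ψ) (hab : ∃ m : ℤ, f.natDegree * b = f.natDegree * a + m)
    (hne : ∀ k : ℤ, b ≠ a + k)
    (h : ∀ s : ℝ, s = a ∨ s = b → ∀ ε : ℝ, 0 < ε → ∀ N : ℕ,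
      ∃ (q : ℕ) (t : ℝ) (m : ℤ) (z y : ℂ), N ≤ q ∧ (f.natDegree : ℝ) ^ q * t = t + m ∧
        |t - s| * (f.natDegree : ℝ) ^ q ≤ C ∧ LandsAt ψ t z ∧
        y ∈ closure {z | ∃ (c : ℂ) (n : ℕ), f.derivative.eval c = 0 ∧
          (fun w => f.eval w)^[n + 1] c = z} ∧ ‖z - y‖ < ε) :
    (∀ (k : ℕ) (V : Set ℂ), IsOpen V → SimplyConnectedSpace V →
      Disjoint V {z | ∃ (c : ℂ) (n : ℕ), f.derivative.eval c = 0 ∧
        (fun w => f.eval w)^[n + 1] c = z} →
      ¬ accumulation ψ ((f.natDegree : ℝ) ^ k * a) ⊆ V ∧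
      ¬ accumulation ψ ((f.natDegree : ℝ) ^ k * b) ⊆ V) ∧
    (∀ (s : ℝ) (w : ℂ), s = a ∨ s = b ∨ s = f.natDegree * a → LandsAt ψ s w →
      ∃ x x' : ℂ, LandsAt ψ a x ∧ LandsAt ψ b x' ∧ f.eval x = f.eval x' ∧
        x ∈ closure {z | ∃ (c : ℂ) (n : ℕ), f.derivative.eval c = 0 ∧
          (fun w => f.eval w)^[n + 1] c = z} ∧
        x' ∈ closure {z | ∃ (c : ℂ) (n : ℕ), f.derivative.eval c = 0 ∧
          (fun w => f.eval w)^[n + 1] c = z} ∧
        (x ≠ x' ∨ f.derivative.eval x = 0) ∧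
        (((∃ c, ∀ z, f.derivative.eval z = 0 → z = c) ∧
          ∃ (α : ℂ) (p : ℕ), 1 ≤ p ∧ (fun w => f.eval w)^[p] α = α ∧
            ∀ ε : ℝ, 0 < ε → ∃ (z : ℂ) (t : ℝ) (n : ℕ) (m : ℤ), 1 ≤ n ∧
              (f.natDegree : ℝ) ^ n * t = t + m ∧ LandsAt ψ t z ∧ z ≠ α ∧
              ∀ k : ℕ, ‖(fun w => f.eval w)^[k] z - (fun w => f.eval w)^[k] α‖ < ε) → x ≠ x')) ∧
    (Set.InjOn (fun z => f.eval z) (closure {z | ∃ (c : ℂ) (n : ℕ), f.derivative.eval c = 0 ∧
        (fun w => f.eval w)^[n + 1] c = z}) →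
      ((∀ x ∈ closure {z | ∃ (c : ℂ) (n : ℕ), f.derivative.eval c = 0 ∧
          (fun w => f.eval w)^[n + 1] c = z}, f.derivative.eval x = 0 →
          ∀ θ : ℝ, ¬ LandsAt ψ θ x) ∨
        ((∃ c, ∀ z, f.derivative.eval z = 0 → z = c) ∧
          ∃ (α : ℂ) (p : ℕ), 1 ≤ p ∧ (fun w => f.eval w)^[p] α = α ∧
            ∀ ε : ℝ, 0 < ε → ∃ (z : ℂ) (t : ℝ) (n : ℕ) (m : ℤ), 1 ≤ n ∧
              (f.natDegree : ℝ) ^ n * t = t + m ∧ LandsAt ψ t z ∧ z ≠ α ∧
              ∀ k : ℕ, ‖(fun w => f.eval w)^[k] z - (fun w => f.eval w)^[k] α‖ < ε)) →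
      ∀ (t : ℝ) (n m : ℕ) (k : ℤ), (f.natDegree : ℝ) ^ n * t = (f.natDegree : ℝ) ^ m * a + k →
        ∀ w : ℂ, ¬ LandsAt ψ t w) ∧
    (∀ (y : ℂ) (s : ℝ), (s = a ∨ s = b) →
      (∀ ε : ℝ, 0 < ε → ∃ (l r : ℝ) (z z' : ℂ), s - ε < l ∧ l < s ∧ s < r ∧ r < s + ε ∧
        LandsAt ψ l z ∧ LandsAt ψ r z' ∧ ‖z - y‖ < ε ∧ ‖z' - y‖ < ε) →
      ∀ S : Set ℂ, IsClosed S → IsPreconnected S → S ⊆ filledJulia f →
        (∀ x x' : ℂ, LandsAt ψ a x → LandsAt ψ b x' → x ∈ S → x' ∈ S → y ∈ S) ∧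
        ({z | ∃ (c : ℂ) (n : ℕ), f.derivative.eval c = 0 ∧
            (fun w => f.eval w)^[n + 1] c = z} ⊆ S → y ∉ S →
          ∀ (t : ℝ) (n m : ℕ) (k : ℤ), (f.natDegree : ℝ) ^ n * t = (f.natDegree : ℝ) ^ m * a + k →
            ∀ w : ℂ, ¬ LandsAt ψ t w)) := by
  obtain ⟨hP, -, -⟩ := half f ψ hd hψ
  have hinf := inf f ψ hψ
  obtain ⟨m₀, hab⟩ := hab
  have hnear : ∀ s : ℝ, s = a ∨ s = b →
      Nlg64.NearPost f (fun u => ψ (Complex.exp (2 * Real.pi * u))) s C := by
    intro s hs ε hε N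
    obtain ⟨q, t, m, z, y, h1, h2, h3, h4, h5, h6⟩ := h s hs ε hε N
    exact ⟨q, t, m, z, y, h1, h2, h3, land_of_landsAt h4, h5, h6⟩
  have hna := hnear a (Or.inl rfl)
  have hnb := hnear b (Or.inr rfl)
  have hcrit : ((∃ c, ∀ z, f.derivative.eval z = 0 → z = c) ∧
          ∃ (α : ℂ) (p : ℕ), 1 ≤ p ∧ (fun w => f.eval w)^[p] α = α ∧
            ∀ ε : ℝ, 0 < ε → ∃ (z : ℂ) (t : ℝ) (n : ℕ) (m : ℤ), 1 ≤ n ∧
              (f.natDegree : ℝ) ^ n * t = t + m ∧ LandsAt ψ t z ∧ z ≠ α ∧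
              ∀ k : ℕ, ‖(fun w => f.eval w)^[k] z - (fun w => f.eval w)^[k] α‖ < ε) →
      ∀ x : ℂ, f.derivative.eval x = 0 → ∀ θ : ℝ, ¬ LandsAt ψ θ x := by
    rintro ⟨⟨c, hc⟩, α, p, hp, hα, hsm⟩ x hx θ hl
    refine Nlg64.crit_not rotp (pul deg) (crxd (crs jmp) quad) hd hP hinf hp hα
      (fun ε hε => ?_) hc hx (land_of_landsAt hl)
    obtain ⟨z, t, n, m, h1, h2, h3, h4, h5⟩ := hsm ε hε
    exact ⟨z, t, n, m, h1, h2, land_of_landsAt h3, h4, h5⟩
  have key : ∀ (s : ℝ) (w : ℂ), s = a ∨ s = b ∨ s = f.natDegree * a → LandsAt ψ s w →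
      ∃ x x' : ℂ, LandsAt ψ a x ∧ LandsAt ψ b x' ∧ f.eval x = f.eval x' ∧
        x ∈ closure (postcritical f) ∧ x' ∈ closure (postcritical f) ∧
        (x ≠ x' ∨ f.derivative.eval x = 0) ∧
        (((∃ c, ∀ z, f.derivative.eval z = 0 → z = c) ∧
          ∃ (α : ℂ) (p : ℕ), 1 ≤ p ∧ (fun w => f.eval w)^[p] α = α ∧
            ∀ ε : ℝ, 0 < ε → ∃ (z : ℂ) (t : ℝ) (n : ℕ) (m : ℤ), 1 ≤ n ∧
              (f.natDegree : ℝ) ^ n * t = t + m ∧ LandsAt ψ t z ∧ z ≠ α ∧
              ∀ k : ℕ, ‖(fun w => f.eval w)^[k] z - (fun w => f.eval w)^[k] α‖ < ε) → x ≠ x') := by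
    intro s w hs hw
    have hw' : ∃ w', Land (fun u => ψ (Complex.exp (2 * Real.pi * u))) (f.natDegree * a) w' := by
      rcases hs with rfl | rfl | rfl
      · exact ⟨_, Rep.land_mul hd hP (land_of_landsAt hw)⟩
      · have h1 := Rep.land_mul hd hP (land_of_landsAt hw)
        rw [hab] at h1
        exact ⟨_, Rep.land_add hP.per m₀ h1⟩
      · exact ⟨_, land_of_landsAt hw⟩
    obtain ⟨w', hw'⟩ := hw'
    obtain ⟨x, x', h1, h2, h3, h4, h5, h6, h7⟩ :=
      Nlg64.pair hd hP hinf hab hne hna hnb hw'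
    refine ⟨x, x', landsAt_of_land h1, landsAt_of_land h2, h3.trans h4.symm, h6, h7, h5,
      fun hs he => ?_⟩
    exact hcrit hs x (h5.resolve_left fun h => h he) a (landsAt_of_land h1)
  have hacc : ∀ (θ : ℝ) (V : Set ℂ), accumulation ψ θ ⊆ V →
      Acc (fun u => ψ (Complex.exp (2 * Real.pi * u))) θ ⊆ V := fun θ V h z hz =>
    h ((acl ψ θ z).2 hz)
  have hback : ∀ (t : ℝ) (n m : ℕ) (k : ℤ),
      (f.natDegree : ℝ) ^ n * t = (f.natDegree : ℝ) ^ m * a + k → ∀ w : ℂ, LandsAt ψ t w →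
      ∃ z, LandsAt ψ a z := by
    intro t n m k ht w hw
    have h1 := land_iter hd hP (land_of_landsAt hw) n
    rw [ht] at h1
    obtain ⟨z, hz⟩ := land_back hd hP m _ (Rep.land_add hP.per k h1)
    exact ⟨z, landsAt_of_land hz⟩
  have hyS : ∀ (y : ℂ) (s : ℝ), (s = a ∨ s = b) →
      (∀ ε : ℝ, 0 < ε → ∃ (l r : ℝ) (z z' : ℂ), s - ε < l ∧ l < s ∧ s < r ∧ r < s + ε ∧
        LandsAt ψ l z ∧ LandsAt ψ r z' ∧ ‖z - y‖ < ε ∧ ‖z' - y‖ < ε) →
      ∀ S : Set ℂ, IsClosed S → IsPreconnected S → S ⊆ filledJulia f →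
        ∀ x x' : ℂ, LandsAt ψ a x → LandsAt ψ b x' → x ∈ S → x' ∈ S → y ∈ S := by
    intro y s hs hpin S hS hSp hSK x x' hx hx' h1 h2
    by_contra hyS
    have hpin' : ∀ ε : ℝ, 0 < ε → ∃ (l r : ℝ) (z z' : ℂ), s - ε < l ∧ l < s ∧ s < r ∧
        r < s + ε ∧ Land (fun u => ψ (Complex.exp (2 * Real.pi * u))) l z ∧
        Land (fun u => ψ (Complex.exp (2 * Real.pi * u))) r z' ∧ ‖z - y‖ < ε ∧ ‖z' - y‖ < ε := by
      intro ε hε
      obtain ⟨l, r, z, z', g1, g2, g3, g4, g5, g6, g7, g8⟩ := hpin ε hε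
      exact ⟨l, r, z, z', g1, g2, g3, g4, land_of_landsAt g5, land_of_landsAt g6, g7, g8⟩
    rcases hs with rfl | rfl
    · exact pin_res hd hP hinf hne (land_of_landsAt hx) (land_of_landsAt hx') hS hSp hSK
        h1 h2 hyS hpin'
    · refine pin_res hd hP hinf (fun k hk => hne (-k) ?_) (land_of_landsAt hx')
        (land_of_landsAt hx) hS hSp hSK h2 h1 hyS hpin'
      push_cast
      linarith
  refine ⟨fun k V hV hsc hVP => ?_, key, fun hinj hor t n m k ht w hw => ?_,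
    fun y s hs hpin S hS hSp hSK => ⟨hyS y s hs hpin S hS hSp hSK, fun hPS hy t n m k ht w hw => ?_⟩⟩
  · exact ⟨fun h => Nlg64.not_sub nla hd hP hinf hV hsc hVP (Nlg64.iter hd hP hna k)
        (hacc _ V h),
      fun h => Nlg64.not_sub nla hd hP hinf hV hsc hVP (Nlg64.iter hd hP hnb k) (hacc _ V h)⟩
  · obtain ⟨z, hz⟩ := hback t n m k ht w hw
    obtain ⟨x, x', hx, -, h3, h4, h5, h6, h7⟩ := key a z (Or.inl rfl) hz
    have hxx : x = x' := hinj h4 h5 h3
    rcases hor with hor | hor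
    · rcases h6 with h6 | h6
      · exact h6 hxx
      · exact hor x h4 h6 a hx
    · exact h7 hor hxx
  · obtain ⟨z, hz⟩ := hback t n m k ht w hw
    obtain ⟨x, x', hx, hx', -, h4, h5, -, -⟩ := key a z (Or.inl rfl) hz
    have hcl : closure (postcritical f) ⊆ S := closure_minimal hPS hS
    exact hy (hyS y s hs hpin S hS hSp hSK x x' hx hx' (hcl h4) (hcl h5))

end Pool.Agent.Results.MP_1c105c_an.NonLanding
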