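import Pool.Agent.Lib.MP_1c105c_an.Scm

set_option autoImplicit false

/-!
# Polynomials with small cycles

`f` is a complex polynomial of degree `d ≥ 2` with connected filled Julia set, `ψ` the inverse of
its Boettcher map, and `α` a periodic point such that every neighbourhood of its orbit `O` contains
a repelling periodic orbit other than `O`. Then `f` has a critical point `c` with the following
properties. `O` meets every closed connected subset of the filled Julia set that contains one of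
the points `f^n(c)`, `n ≥ 1`, and the accumulation set, or the landing point, of an external ray.
In particular `O` meets the accumulation sets of rays and the impressions that contain some
`f^n(c)`, and every point of the Julia set in the closure `P` of the set of these points lies in an
impression that meets `O`. If a nonmeagre set of external rays lands, `P` does not contain the
Julia set, and if `c` is the only critical point, then for some open arc the impression of every
angle whose orbit under multiplication by `d` visits the arc infinitely often is a single point at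
which the Julia set is connected im kleinen.
-/

open Filter Topology Set Polynomial Pool.Agent.Imp

namespace Pool.Agent.Results.MP_1c105c_an.SmallCycles

theorem result (f : ℂ[X]) (ψ : ℂ → ℂ) (α : ℂ) (p : ℕ) (hd : 2 ≤ f.natDegree)
    (hψ : IsInverseBoettcher f ψ) (hp : 1 ≤ p) (hα : (fun w => f.eval w)^[p] α = α)
    (hsm : ∀ ε : ℝ, 0 < ε → ∃ (z : ℂ) (n : ℕ), 1 ≤ n ∧ (fun w => f.eval w)^[n] z = z ∧
      1 < ‖deriv (fun w => f.eval w)^[n] z‖ ∧ (∀ k : ℕ, (fun w => f.eval w)^[k] z ≠ α) ∧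
      ∀ k : ℕ, ∃ j : ℕ, ‖(fun w => f.eval w)^[k] z - (fun w => f.eval w)^[j] α‖ < ε) :
    ∃ c : ℂ, f.derivative.eval c = 0 ∧
    (∀ (E : Set ℂ) (n : ℕ) (θ : ℝ), IsClosed E → IsPreconnected E → E ⊆ filledJulia f →
      (fun w => f.eval w)^[n + 1] c ∈ E →
      (accumulation ψ θ ⊆ E ∨ ∃ w ∈ E, LandsAt ψ θ w) →
      ∃ j : ℕ, (fun w => f.eval w)^[j] α ∈ E) ∧
    (∀ (n : ℕ) (θ : ℝ), ((fun w => f.eval w)^[n + 1] c ∈ accumulation ψ θ →
        ∃ j : ℕ, (fun w => f.eval w)^[j] α ∈ accumulation ψ θ) ∧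
      ((fun w => f.eval w)^[n + 1] c ∈ impression ψ θ →
        ∃ j : ℕ, (fun w => f.eval w)^[j] α ∈ impression ψ θ)) ∧
    (∀ y ∈ closure {z | ∃ n : ℕ, (fun w => f.eval w)^[n + 1] c = z}, y ∈ julia f →
      ∃ θ : ℝ, y ∈ impression ψ θ ∧ ∃ j : ℕ, (fun w => f.eval w)^[j] α ∈ impression ψ θ) ∧
    (¬ IsMeagre {θ : ℝ | ∃ z, LandsAt ψ θ z} →
      ¬ julia f ⊆ closure {z | ∃ n : ℕ, (fun w => f.eval w)^[n + 1] c = z} ∧
      ((∀ z, f.derivative.eval z = 0 → z = c) →
        ∃ a b : ℝ, a < b ∧ ∀ θ : ℝ, (∀ N : ℕ, ∃ (n : ℕ) (m : ℤ), N ≤ n ∧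
          a < (f.natDegree : ℝ) ^ n * θ + m ∧ (f.natDegree : ℝ) ^ n * θ + m < b) →
          ∃ z, impression ψ θ = {z} ∧ CikAt (julia f) z)) := by
  obtain ⟨hP, -, -⟩ := half f ψ hd hψ
  obtain ⟨hKc, hKb, -⟩ := jul f _ hd hP
  obtain ⟨c, hc, hsep⟩ := Scg.exists_sep hd hP (inf f ψ hψ) hp hα hsm
  refine ⟨c, hc, fun E n θ hE hEp hEK hcE hθ => ?_, fun n θ => ⟨fun h => ?_, fun h => ?_⟩,
    fun y hy hyJ => Scg.orb_imp hd hψ hp hα
      (cyc_julia hd hP (rays_of_near Sc.dep0 hd hP (inf f ψ hψ) hp hα hsm)) hc hsep hy hyJ,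
    fun hme => ?_⟩
  · rcases hθ with hθ | ⟨w, hwE, hθ⟩
    · exact Scg.acc_sep hd hψ hsep E n θ hE hEp hEK hcE hθ
    · exact Scg.sep_land hsep (Metric.isCompact_of_isClosed_isBounded hE (hKb.subset hEK)) hEp hEK
        hcE hwE (land_of_landsAt hθ)
  · exact Scg.acc_mem hd hψ hsep h
  · exact Scg.imp_mem hd hψ hsep h
  · have h := Sc.tar5 f ψ hd hψ (Or.inl hme)
    have hnd := Scg.not_dense hd hψ hp hα hc hsep h.2.1
    refine ⟨hnd, fun hcc => ?_⟩
    have hpc : postcritical f = Scg.Orb f c := by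
      ext z
      constructor
      · rintro ⟨c', n, hc', rfl⟩
        rw [hcc c' hc']
        exact ⟨n, rfl⟩
      · rintro ⟨n, rfl⟩
        exact ⟨c, n, hc, rfl⟩
    obtain ⟨a, b, hab, h4⟩ := arc hd hψ h.2.1 (by rw [hpc]; exact hnd)
    exact ⟨a, b, hab, fun θ hθ => good_sub (h4 θ hθ)⟩

end Pool.Agent.Results.MP_1c105c_an.SmallCycles
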