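import Pool.Agent.Lib.MP_1c105c_an.Main
import Pool.Agent.Lib.MP_1c105c_an.Main2
import Pool.Agent.Lib.MP_1c105c_an.Main3
import Pool.Agent.Lib.MP_1c105c_an.Main4
import Pool.Agent.Lib.MP_1c105c_an.Main5
import Pool.Agent.Lib.MP_1c105c_an.Fin11
import Pool.Agent.Lib.MP_1c105c_an.Inv
import Pool.Agent.Lib.MP_1c105c_an.Bai
import Pool.Agent.Lib.MP_1c105c_an.Res
import Pool.Agent.Lib.MP_1c105c_an.Exc
import Pool.Agent.Lib.MP_1c105c_an.Area
import Pool.Agent.Lib.MP_1c105c_an.Count
import Pool.Agent.Lib.MP_1c105c_an.Hau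
import Pool.Agent.Lib.MP_1c105c_an.Dim
import Pool.Agent.Lib.MP_1c105c_an.Inf
import Pool.Agent.Lib.MP_1c105c_an.Jul
import Pool.Agent.Lib.MP_1c105c_an.Loc
import Pool.Agent.Lib.MP_1c105c_an.Abs2
import Pool.Agent.Lib.MP_1c105c_an.Exa
import Pool.Agent.Lib.MP_1c105c_an.Int
import Pool.Agent.Lib.MP_1c105c_an.Den
import Pool.Agent.Lib.MP_1c105c_an.App
import Pool.Agent.Lib.MP_1c105c_an.Cro
import Pool.Agent.Lib.MP_1c105c_an.Lgk
import Pool.Agent.Lib.MP_1c105c_an.Jan
import Pool.Agent.Lib.MP_1c105c_an.Cik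
import Pool.Agent.Lib.MP_1c105c_an.Impr
import Pool.Agent.Lib.MP_1c105c_an.Sml
import Pool.Agent.Lib.MP_1c105c_an.Lpb
import Pool.Agent.Lib.MP_1c105c_an.Bin
import Pool.Agent.Lib.MP_1c105c_an.Uns
import Pool.Agent.Lib.MP_1c105c_an.Nc
import Pool.Agent.Lib.MP_1c105c_an.Cnt
import Pool.Agent.Lib.MP_1c105c_an.Sho
import Pool.Agent.Lib.MP_1c105c_an.Len
import Pool.Agent.Lib.MP_1c105c_an.Hyp
import Pool.Agent.Lib.MP_1c105c_an.Jac
import Pool.Agent.Lib.MP_1c105c_an.Bia
import Pool.Agent.Lib.MP_1c105c_an.Fix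
import Pool.Agent.Lib.MP_1c105c_an.Rju
import Pool.Agent.Lib.MP_1c105c_an.Koe
import Pool.Agent.Lib.MP_1c105c_an.Psi
import Pool.Agent.Lib.MP_1c105c_an.Ene
import Pool.Agent.Lib.MP_1c105c_an.Del
import Pool.Agent.Lib.MP_1c105c_an.Sna
import Pool.Agent.Lib.MP_1c105c_an.Pth
import Pool.Agent.Lib.MP_1c105c_an.Deg
import Pool.Agent.Lib.MP_1c105c_an.Jmp
import Pool.Agent.Lib.MP_1c105c_an.Crs
import Pool.Agent.Lib.MP_1c105c_an.Sep
import Pool.Agent.Lib.MP_1c105c_an.Eng
import Pool.Agent.Lib.MP_1c105c_an.Cv8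
import Pool.Agent.Lib.MP_1c105c_an.Orb
import Pool.Agent.Lib.MP_1c105c_an.Alp
import Pool.Agent.Lib.MP_1c105c_an.Bas
import Pool.Agent.Lib.MP_1c105c_an.Lft2
import Pool.Agent.Lib.MP_1c105c_an.Ata
import Pool.Agent.Lib.MP_1c105c_an.Pet
import Pool.Agent.Lib.MP_1c105c_an.Pac
import Pool.Agent.Lib.MP_1c105c_an.Acc
import Pool.Agent.Lib.MP_1c105c_an.Thr
import Pool.Agent.Lib.MP_1c105c_an.Pry
import Pool.Agent.Lib.MP_1c105c_an.Irr
import Pool.Agent.Lib.MP_1c105c_an.Col
import Pool.Agent.Lib.MP_1c105c_an.Arc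
import Pool.Agent.Lib.MP_1c105c_an.Lim
import Pool.Agent.Lib.MP_1c105c_an.Ptw

set_option autoImplicit false

/-!
# A zero-one law for local connectivity of polynomial Julia sets

`f` is a complex polynomial of degree at least 2 with connected filled Julia set, `ψ` the inverse
of its Boettcher map. Then one of the following holds.

(0) The Julia set is connected im kleinen at no point; there is `δ > 0` such that the impressions
of all external angles have diameter at least `δ`; all impressions have a common point; for all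
angles outside a meagre set the external ray accumulates on the whole impression; no two external
rays of different angles land at the same point; `f` has an irrationally indifferent fixed point
`α` and all other periodic points of `f` are repelling and landing points of exactly one external
ray; and the filled impression of every angle contains `α` and the orbits of all critical values
of `f`.

(1) For all external angles `θ` outside a meagre set of Hausdorff dimension less than 1, and, if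
the orbits of the critical values are not dense in the Julia set, for all `θ` such that `d ^ n θ` is
infinitely often in a certain open arc, the impression is a single point at which the Julia set is
connected im kleinen; the impression of `θ` is a single point if the impression of some limit
angle `θ'` of `d ^ n θ` lies in a simply connected open set without points of these orbits; and the
Julia set is connected im kleinen at all its points outside a meagre subset, and at all points `z`
such that it is so at a limit point of the orbit of `z` that is not in the closure of the orbits of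
the critical values.

The filled impression of an angle is the impression together with the bounded components of its
complement.
-/

open Filter Topology Set Polynomial Pool.Agent.Imp

namespace Pool.Agent.Results.MP_1c105c_an.ZeroOneLaw

private theorem tar2 : Target2 :=
  main2 half bai (exc inv) inf jul (loc jul) (abs2 (exc inv) inv area jul (exa jul) int)
    (den half jul) (dim count hau)
    (main half inv bai (res inv) (abs (exc inv) inv area) (dim count hau))

private theorem tar3 : Target3 :=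
  main3 half inf (sml inv) (cik jul (app jul) cro (lgk jul) jan) (imp half) tar2

private theorem bia0 : BiaStatement :=
  bia (bin lpb jul) (uns area) (nc jul (lgk jul)) cnt64
    (sho (bin lpb jul) (uns area) (nc jul (lgk jul)) cnt64) len hyp64 (jac jul (lgk jul) jan)

private theorem tar5 : Target5 :=
  main5 tar2 (main4 tar2 tar3 half inf (sml inv) bia0) half (sml inv)

private theorem cv0 : Cv8Statement := cv8 pth deg (sep deg (crs jmp)) eng

private theorem del0 : DelStatement := del rju koe (psi (app jul) hyp64 jul) ene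

private theorem nr0 : Nr3Statement := nr3 (fix hyp64) del0 sna

private theorem irr0 : IrrStatement :=
  irr (ata bas lft2) (pac bas lft2 pet uniq) (acc deg) (thr (crs jmp)) (pry (fix hyp64)) alp64 del0
    rju lpb jul

theorem result (f : ℂ[X]) (ψ : ℂ → ℂ) (hd : 2 ≤ f.natDegree) (hψ : IsInverseBoettcher f ψ) :
    ((∀ z, ¬ CikAt (julia f) z) ∧
      (∃ δ : ℝ, 0 < δ ∧ ∀ θ : ℝ, δ ≤ Metric.diam (impression ψ θ)) ∧
      (∃ z, ∀ θ, z ∈ impression ψ θ) ∧
      {θ : ℝ | accumulation ψ θ = impression ψ θ} ∈ residual ℝ ∧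
      (∀ (θ₁ θ₂ : ℝ) (z : ℂ), LandsAt ψ θ₁ z → LandsAt ψ θ₂ z → ∃ m : ℤ, θ₂ = θ₁ + m) ∧
      (∃ α, f.eval α = α ∧ ‖f.derivative.eval α‖ = 1 ∧
        (∀ m : ℕ, 1 ≤ m → f.derivative.eval α ^ m ≠ 1) ∧ (∀ θ, α ∈ filledImpression ψ θ) ∧
        ∀ (n : ℕ) (z : ℂ), 1 ≤ n → (fun w => f.eval w)^[n] z = z → z ≠ α →
          1 < ‖deriv (fun w => f.eval w)^[n] z‖ ∧
          ∃! θ : ℝ, θ ∈ Set.Ico (0 : ℝ) 1 ∧ LandsAt ψ θ z) ∧
      ∀ (θ : ℝ) (c : ℂ) (n : ℕ), f.derivative.eval c = 0 →
        (fun w => f.eval w)^[n + 1] c ∈ filledImpression ψ θ) ∨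
    ({θ : ℝ | ∃ z, impression ψ θ = {z} ∧ CikAt (julia f) z} ∈ residual ℝ ∧
      dimH {θ : ℝ | ∃ z, impression ψ θ = {z} ∧ CikAt (julia f) z}ᶜ < 1 ∧
      (¬ julia f ⊆ closure {z | ∃ (c : ℂ) (n : ℕ), f.derivative.eval c = 0 ∧
          (fun w => f.eval w)^[n + 1] c = z} →
        ∃ a b : ℝ, a < b ∧ ∀ θ : ℝ, (∀ N : ℕ, ∃ (n : ℕ) (m : ℤ), N ≤ n ∧
          a < (f.natDegree : ℝ) ^ n * θ + m ∧ (f.natDegree : ℝ) ^ n * θ + m < b) →
          ∃ z, impression ψ θ = {z} ∧ CikAt (julia f) z) ∧
      (∀ (θ θ' : ℝ) (V : Set ℂ), (∀ ε : ℝ, 0 < ε → ∀ N : ℕ, ∃ (n : ℕ) (m : ℤ), N ≤ n ∧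
          |(f.natDegree : ℝ) ^ n * θ + m - θ'| < ε) → IsOpen V → SimplyConnectedSpace V →
        impression ψ θ' ⊆ V → (∀ (c : ℂ) (n : ℕ), f.derivative.eval c = 0 →
          (fun w => f.eval w)^[n + 1] c ∉ V) → ∃ z, impression ψ θ = {z}) ∧
      {z : julia f | CikAt (julia f) z} ∈ residual (julia f) ∧
      ∀ z y : ℂ, MapClusterPt y atTop (fun n : ℕ => (fun w => f.eval w)^[n] z) →
        CikAt (julia f) y → y ∉ closure {z | ∃ (c : ℂ) (n : ℕ), f.derivative.eval c = 0 ∧
          (fun w => f.eval w)^[n + 1] c = z} → CikAt (julia f) z) :=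
  (fin11 irr0 f ψ hd hψ
    (fin10 half inf (sml inv) bia0 tar2 tar5 nr0 cv0 orb alp64 f ψ hd hψ)).imp
    (fun ⟨h1, ⟨δ, hδ, h2, _⟩, h3, h4, h5, h6⟩ =>
      ⟨h1, ⟨δ, hδ, h2⟩, h4, col hψ.differentiableOn.continuousOn, h3, h5, h6⟩)
    (fun h => ⟨mem_of_superset h.1 good_sub,
      (dimH_mono (compl_subset_compl.2 good_sub)).trans_lt h.2.1, fun hy => by
        obtain ⟨a, b, hab, h4⟩ := arc hd hψ h.2.1 hy
        exact ⟨a, b, hab, fun θ hθ => good_sub (h4 θ hθ)⟩,
      fun _ _ _ h4 h5 h6 h7 h8 => lim hd hψ h4 h5 h6 h7 h8, h.2.2,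
      fun _ _ h4 h5 h6 => ptw hd h4 h5 h6⟩)

end Pool.Agent.Results.MP_1c105c_an.ZeroOneLaw
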